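import Mathlib
import Pool.Agent.Helper37.FracTuza.Defs

/-!
Definitions for integral covers and fractional packings in the Aharoni-Zerbib problem on `(k-1)`-sets
(problem MP_b0da8a_co). `IsFractionalCover` and `totalWeight` are in
`Pool.Agent.Helper37.FracTuza.Defs`.
-/

namespace Pool.Agent.Helper5.FracCover

/-- `C` is a family of `(k-1)`-element sets such that every member of `H` contains a member of `C`.
The least size of such a family is `τ^(k-1)(H)`. -/
def IsCover {n : ℕ} (k : ℕ) (H C : Finset (Finset (Fin n))) : Prop :=
  (∀ S ∈ C, S.card = k - 1) ∧ ∀ e ∈ H, ∃ S ∈ C, S ⊆ e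

/-- `y` is a fractional packing in `H`: the weights are nonnegative, and for every `(k-1)`-element
set `S` the members of `H` which contain `S` have total weight at most `1`. The largest total
weight of a fractional packing is `ν*^(k-1)(H)`; for weights `0` and `1` these are the families of
members of `H` which pairwise share fewer than `k-1` vertices. -/
def IsFractionalPacking {n : ℕ} (k : ℕ) (H : Finset (Finset (Fin n))) (y : Finset (Fin n) → ℝ) :
    Prop :=
  (∀ e, 0 ≤ y e) ∧ ∀ S : Finset (Fin n), S.card = k - 1 →
    ∑ e ∈ H.filter (fun e => S ⊆ e), y e ≤ 1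

end Pool.Agent.Helper5.FracCover
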