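import Pool.Agent.Helper5.FracCover.Defs
import Pool.Agent.Helper37.FracTuza.Dual

/-!
From fractional covers to fractional packings (problem MP_b0da8a_co).
-/

namespace Pool.Agent.Helper5.FracCover

open Finset Pool.Agent.Helper37.FracTuza

variable {n : ℕ}

/-- A best fractional packing and a fractional cover of the same weight. -/
theorem exists_dual {k : ℕ} (hk : 1 ≤ k) (H : Finset (Finset (Fin n)))
    (hH : ∀ e ∈ H, e.card = k) :
    ∃ (y w : Finset (Fin n) → ℝ), IsFractionalPacking k H y ∧ IsFractionalCover k H w ∧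
      totalWeight k w ≤ ∑ e ∈ H, y e := by
  classical
  rcases H.eq_empty_or_nonempty with hHe | ⟨e₀, he₀⟩
  · refine ⟨fun _ => 0, fun _ => 0, ⟨fun _ => le_rfl, fun S _ => by simp⟩,
      ⟨fun _ => le_rfl, by simp [hHe]⟩, ?_⟩
    simp [totalWeight]
  obtain ⟨A, hA⟩ : ∃ A : {e // e ∈ H} →
      {S // S ∈ (Finset.univ : Finset (Fin n)).powersetCard (k - 1)} → ℝ,
      A = fun i S => if S.1 ⊆ i.1 then (1 : ℝ) else 0 := ⟨_, rfl⟩
  have hA0 : ∀ i j, 0 ≤ A i j := by
    intro i j
    rw [hA]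
    simp only []
    split_ifs <;> norm_num
  have hA1 : ∀ i j, A i j ≤ 1 := by
    intro i j
    rw [hA]
    simp only []
    split_ifs <;> norm_num
  obtain ⟨K, hK⟩ : ∃ K : Set ({e // e ∈ H} → ℝ),
      K = {a | (∀ i, 0 ≤ a i) ∧ ∀ j, ∑ i, a i * A i j ≤ 1} := ⟨_, rfl⟩
  have hKsub : K ⊆ Set.Icc (0 : {e // e ∈ H} → ℝ) (fun _ => 1) := by
    intro a ha
    rw [hK] at ha
    refine ⟨fun i => ha.1 i, fun i => ?_⟩
    have h1 : (i.1.powersetCard (k - 1)).Nonempty := by
      rw [powersetCard_nonempty, hH i.1 i.2]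
      omega
    obtain ⟨S, hS⟩ := h1
    rw [mem_powersetCard] at hS
    have h2 := ha.2 ⟨S, mem_powersetCard.2 ⟨subset_univ S, hS.2⟩⟩
    have h3 : a i * A i ⟨S, mem_powersetCard.2 ⟨subset_univ S, hS.2⟩⟩ = a i := by
      rw [hA]
      simp [hS.1]
    calc a i = a i * A i ⟨S, mem_powersetCard.2 ⟨subset_univ S, hS.2⟩⟩ := h3.symm
      _ ≤ ∑ i, a i * A i ⟨S, mem_powersetCard.2 ⟨subset_univ S, hS.2⟩⟩ :=
        Finset.single_le_sum (f := fun i => a i * A i ⟨S, mem_powersetCard.2 ⟨subset_univ S, hS.2⟩⟩)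
          (fun i' _ => mul_nonneg (ha.1 i') (hA0 _ _)) (mem_univ i)
      _ ≤ 1 := h2
  have hKcl : IsClosed K := by
    have : K = (⋂ i, {a : {e // e ∈ H} → ℝ | 0 ≤ a i}) ∩ ⋂ j, {a | ∑ i, a i * A i j ≤ 1} := by
      rw [hK]
      ext a
      simp
    rw [this]
    refine IsClosed.inter (isClosed_iInter fun i => ?_) (isClosed_iInter fun j => ?_)
    · exact isClosed_le continuous_const (continuous_apply i)
    · exact isClosed_le (continuous_finsetSum _ fun i _ => (continuous_apply i).mul continuous_const)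
        continuous_const
  have hKcomp : IsCompact K := IsCompact.of_isClosed_subset isCompact_Icc hKcl hKsub
  have hcont : Continuous fun a : {e // e ∈ H} → ℝ => ∑ i, a i :=
    continuous_finsetSum _ fun i _ => continuous_apply i
  -- one edge
  have hone : (fun i : {e // e ∈ H} => if i = ⟨e₀, he₀⟩ then (1 : ℝ) else 0) ∈ K := by
    rw [hK]
    refine ⟨fun i => by simp only []; split_ifs <;> norm_num, fun j => ?_⟩
    simp only [ite_mul, one_mul, zero_mul, sum_ite_eq', mem_univ, if_true]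
    exact hA1 _ _
  obtain ⟨a, haK, hmax⟩ := hKcomp.exists_isMaxOn ⟨_, hone⟩ hcont.continuousOn
  have hC : 1 ≤ ∑ i, a i := by
    have h1 := hmax hone
    simpa using h1
  have haK' := haK
  rw [hK] at haK'
  obtain ⟨w, hw0, hw1, hw2⟩ := lp_dual A (∑ i, a i) (by linarith) (by
    intro a' h1 h2
    have h3 : a' ∈ K := by
      rw [hK]
      exact ⟨h1, h2⟩
    exact hmax h3)
  obtain ⟨y, hy⟩ : ∃ y : Finset (Fin n) → ℝ, y = fun e => if h : e ∈ H then a ⟨e, h⟩ else 0 :=
    ⟨_, rfl⟩
  have hya : ∀ i : {e // e ∈ H}, y i.1 = a i := by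
    intro i
    rw [hy]
    simp [i.2]
  obtain ⟨v, hv⟩ : ∃ v : Finset (Fin n) → ℝ, v = fun S =>
      if h : S ∈ (Finset.univ : Finset (Fin n)).powersetCard (k - 1) then w ⟨S, h⟩ else 0 :=
    ⟨_, rfl⟩
  have hvw : ∀ S : {S // S ∈ (Finset.univ : Finset (Fin n)).powersetCard (k - 1)},
      v S.1 = w S := by
    intro S
    rw [hv]
    simp only []
    rw [dif_pos S.2]
  refine ⟨y, v, ⟨?_, ?_⟩, ⟨?_, ?_⟩, ?_⟩
  · intro e
    rw [hy]
    simp only []
    split_ifs
    · exact haK'.1 _
    · exact le_rfl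
  · intro S hS
    have h2 := haK'.2 ⟨S, mem_powersetCard.mpr ⟨subset_univ _, hS⟩⟩
    refine le_trans (le_of_eq ?_) h2
    rw [sum_filter, ← sum_coe_sort H (fun e => if S ⊆ e then y e else 0)]
    refine sum_congr rfl fun i _ => ?_
    rw [hA]
    simp only []
    split_ifs
    · rw [hya, mul_one]
    · rw [mul_zero]
  · intro S
    rw [hv]
    simp only []
    split_ifs
    · exact hw0 _
    · exact le_rfl
  · intro e he
    have h1 := hw1 ⟨e, he⟩
    have h2 : ∑ S ∈ e.powersetCard (k - 1), v S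
        = ∑ S ∈ (Finset.univ : Finset (Fin n)).powersetCard (k - 1),
            (if S ⊆ e then (1 : ℝ) else 0) * v S := by
      have h3 : e.powersetCard (k - 1)
          = ((Finset.univ : Finset (Fin n)).powersetCard (k - 1)).filter (fun S => S ⊆ e) := by
        ext S
        simp only [mem_powersetCard, mem_filter, subset_univ, true_and]
        exact and_comm
      rw [h3, sum_filter]
      refine sum_congr rfl fun S _ => ?_
      split_ifs <;> simp
    rw [h2, ← sum_coe_sort _ (fun S => (if S ⊆ e then (1 : ℝ) else 0) * v S)]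
    simp_rw [hvw]
    rw [hA] at h1
    exact h1
  · have h1 : totalWeight k v = ∑ j, w j := by
      rw [totalWeight, ← sum_coe_sort _ v]
      simp_rw [hvw]
    have h2 : ∑ e ∈ H, y e = ∑ i, a i := by
      rw [← sum_coe_sort H y]
      exact sum_congr rfl fun i _ => hya i
    rw [h1, h2]
    exact hw2

end Pool.Agent.Helper5.FracCover
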