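import Pool.Agent.Helper5.FracCover.Tables

/-!
Tables of random thresholds for `k = 6, 8, 10, 12, 14` with the constant `k / 2 + 1` (problem
MP_b0da8a_co).
-/

namespace Pool.Agent.Helper5.FracCover

def L6 : List (ℕ × List ℕ) := [
  (2, [5, 1, 8, 2, 6, 2]),
  (1, [5, 2, 7, 4, 6, 2]),
  (4, [5, 1, 8, 3, 6, 3]),
  (3, [5, 2, 7, 4, 5, 5]),
  (1, [5, 5, 6, 5, 6, 3])]

theorem scheme6 {ε : ℝ} (hε : 0 < ε) : Scheme 6 (4 : ℕ) ε :=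
  scheme_of_table (n := 8) (G := 4) (by norm_num) (by norm_num)
    [1, 5, 10, 10, 5, 1] L6 rfl (by decide) (by decide +kernel) hε

def L8 : List (ℕ × List ℕ) := [
  (1, [5, 5, 1, 7, 4, 6, 1, 5]),
  (2, [5, 5, 1, 8, 3, 5, 5, 5]),
  (2, [5, 5, 1, 8, 3, 6, 3, 5]),
  (4, [5, 5, 2, 7, 4, 6, 2, 5]),
  (1, [5, 5, 1, 8, 2, 6, 2, 5])]

theorem scheme8 {ε : ℝ} (hε : 0 < ε) : Scheme 8 (5 : ℕ) ε :=
  scheme_of_table (n := 8) (G := 5) (by norm_num) (by norm_num)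
    [1, 7, 21, 35, 35, 21, 7, 1] L8 rfl (by decide) (by decide +kernel) hε

def L10 : List (ℕ × List ℕ) := [
  (12, [6, 3, 7, 2, 9, 4, 8, 2, 6, 6]),
  (6, [6, 6, 6, 1, 10, 3, 8, 2, 6, 6]),
  (5, [6, 6, 6, 6, 6, 7, 5, 6, 6, 6]),
  (2, [6, 1, 7, 1, 10, 1, 6, 7, 1, 5]),
  (4, [5, 3, 7, 1, 10, 3, 5, 7, 3, 5])]

theorem scheme10 {ε : ℝ} (hε : 0 < ε) : Scheme 10 (6 : ℕ) ε :=
  scheme_of_table (n := 10) (G := 6) (by norm_num) (by norm_num)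
    [1, 9, 36, 84, 126, 126, 84, 36, 9, 1] L10 rfl (by decide) (by decide +kernel) hε

def L12 : List (ℕ × List ℕ) := [
  (3, [14, 14, 11, 15, 3, 22, 7, 21, 1, 15, 10, 14]),
  (4, [13, 13, 13, 13, 1, 24, 4, 16, 10, 13, 13, 13]),
  (2, [14, 10, 15, 14, 9, 18, 11, 19, 4, 15, 10, 14]),
  (4, [13, 13, 13, 13, 9, 18, 11, 17, 9, 13, 13, 13]),
  (3, [13, 13, 13, 13, 8, 19, 10, 16, 11, 13, 13, 13]),
  (1, [13, 13, 12, 15, 2, 22, 7, 19, 5, 15, 10, 13]),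
  (6, [14, 14, 14, 14, 2, 23, 6, 19, 4, 14, 14, 14]),
  (2, [13, 13, 3, 18, 3, 22, 7, 20, 3, 13, 13, 13]),
  (2, [13, 13, 13, 13, 9, 18, 10, 17, 9, 13, 13, 13]),
  (6, [12, 12, 12, 12, 1, 24, 5, 20, 3, 12, 12, 12]),
  (4, [14, 14, 14, 14, 5, 21, 8, 16, 11, 14, 14, 14]),
  (1, [14, 14, 11, 15, 2, 23, 6, 20, 2, 15, 10, 14]),
  (3, [14, 14, 14, 14, 10, 17, 12, 17, 9, 14, 14, 14]),
  (3, [12, 12, 12, 15, 3, 22, 7, 15, 12, 15, 10, 12]),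
  (2, [12, 12, 12, 15, 2, 23, 6, 16, 10, 15, 10, 12]),
  (3, [13, 13, 13, 2, 20, 8, 21, 4, 15, 12, 13, 13])]

theorem scheme12 {ε : ℝ} (hε : 0 < ε) : Scheme 12 (7 : ℕ) ε :=
  scheme_of_table (n := 24) (G := 7) (by norm_num) (by norm_num)
    [1, 11, 55, 165, 330, 462, 462, 330, 165, 55, 11, 1] L12 rfl (by decide) (by decide +kernel) hε

def L14 : List (ℕ × List ℕ) := [
  (37, [30, 30, 30, 30, 39, 19, 50, 24, 45, 20, 39, 28, 30, 30]),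
  (27, [35, 35, 35, 35, 20, 46, 29, 43, 29, 40, 29, 35, 35, 35]),
  (17, [30, 30, 30, 30, 30, 29, 43, 30, 41, 29, 30, 30, 30, 30]),
  (49, [32, 32, 32, 30, 39, 1, 64, 8, 47, 18, 39, 28, 32, 32]),
  (112, [35, 35, 30, 38, 27, 42, 24, 50, 19, 38, 30, 38, 29, 35]),
  (112, [34, 34, 34, 34, 4, 55, 23, 51, 18, 34, 34, 34, 34, 34]),
  (39, [35, 35, 37, 29, 40, 29, 43, 31, 40, 31, 37, 35, 37, 31]),
  (37, [31, 31, 31, 31, 5, 53, 13, 61, 5, 31, 31, 31, 31, 31]),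
  (35, [28, 28, 28, 28, 2, 56, 11, 63, 2, 44, 19, 28, 28, 28]),
  (98, [30, 30, 30, 30, 6, 54, 14, 60, 6, 44, 19, 30, 30, 30]),
  (16, [32, 32, 32, 32, 32, 30, 42, 32, 42, 27, 32, 32, 32, 32]),
  (24, [31, 29, 38, 31, 38, 11, 56, 18, 51, 11, 38, 31, 31, 31]),
  (50, [32, 32, 32, 30, 39, 20, 49, 25, 42, 27, 39, 28, 32, 32]),
  (91, [30, 37, 30, 37, 8, 53, 17, 57, 10, 44, 19, 37, 30, 30]),
  (87, [36, 36, 36, 28, 39, 7, 59, 15, 55, 4, 39, 28, 36, 36]),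
  (75, [30, 37, 35, 37, 24, 44, 12, 62, 3, 37, 35, 37, 35, 35]),
  (75, [36, 36, 36, 36, 36, 23, 47, 27, 46, 20, 36, 36, 36, 36]),
  (11, [31, 29, 38, 31, 38, 2, 63, 8, 46, 20, 38, 31, 31, 31]),
  (37, [30, 37, 30, 37, 5, 52, 25, 49, 21, 37, 30, 37, 30, 30]),
  (51, [33, 33, 33, 33, 8, 53, 14, 60, 4, 33, 33, 33, 33, 33]),
  (7, [32, 32, 32, 32, 32, 2, 63, 9, 54, 6, 32, 32, 32, 32]),
  (26, [32, 32, 32, 32, 11, 51, 13, 61, 5, 40, 28, 32, 32, 32]),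
  (86, [35, 35, 37, 29, 40, 9, 58, 16, 52, 9, 37, 35, 37, 32]),
  (64, [32, 32, 32, 32, 5, 54, 16, 58, 8, 32, 32, 32, 32, 32]),
  (123, [35, 35, 35, 35, 35, 1, 64, 10, 41, 28, 35, 35, 35, 35]),
  (13, [34, 34, 34, 34, 34, 3, 62, 12, 41, 28, 34, 34, 34, 34]),
  (33, [35, 35, 35, 35, 35, 6, 59, 15, 56, 1, 35, 35, 35, 35]),
  (49, [36, 36, 36, 30, 39, 7, 57, 17, 47, 18, 39, 28, 36, 36]),
  (62, [31, 31, 31, 31, 20, 46, 25, 49, 21, 40, 29, 31, 31, 31]),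
  (47, [36, 36, 36, 36, 29, 41, 31, 43, 29, 43, 20, 36, 36, 36]),
  (76, [32, 32, 32, 32, 5, 52, 11, 63, 2, 40, 28, 32, 32, 32]),
  (8, [36, 36, 36, 36, 1, 56, 17, 57, 8, 40, 28, 36, 36, 36]),
  (30, [32, 32, 32, 32, 32, 7, 59, 15, 56, 2, 32, 32, 32, 32]),
  (149, [33, 33, 33, 33, 38, 22, 48, 26, 45, 22, 33, 33, 33, 33]),
  (62, [36, 36, 36, 36, 36, 3, 62, 12, 56, 2, 36, 36, 36, 36]),
  (50, [36, 36, 36, 36, 36, 3, 61, 13, 54, 6, 36, 36, 36, 36]),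
  (37, [36, 36, 36, 36, 20, 46, 13, 61, 4, 36, 36, 36, 36, 36])]

theorem scheme14 {ε : ℝ} (hε : 0 < ε) : Scheme 14 (8 : ℕ) ε :=
  scheme_of_table (n := 64) (G := 8) (by norm_num) (by norm_num)
    [1, 13, 78, 286, 715, 1287, 1716, 1716, 1287, 715, 286, 78, 13, 1] L14 rfl (by decide) (by decide +kernel) hε

end Pool.Agent.Helper5.FracCover
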