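import Pool.Agent.Helper5.FracCover.SchemeA

/-!
Random thresholds for `k = 5` with the constant `3` (problem MP_b0da8a_co).
-/

namespace Pool.Agent.Helper5.FracCover

open Finset

noncomputable def b5 (x : ℝ) : ℝ := max (9 * x / 16) (min (27 * x / 16 - 3 / 4) (3 * x / 4))
noncomputable def a5 (x : ℝ) : ℝ := min (3 / 5) (3 - 4 * b5 x)
noncomputable def c5 (x : ℝ) : ℝ := 1 - 2 * b5 x / 3

noncomputable def T5 (M : ℕ) (i : Fin M) (j : ℕ) : ℝ :=
  if j = 0 ∨ j = 4 then a5 ((i : ℝ) / M) else if j = 1 ∨ j = 3 then b5 ((i : ℝ) / M)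
  else c5 ((i : ℝ) / M)

theorem T5_sum {M : ℕ} (x : Fin M) {i : ℕ} (hi : i ≤ 5) :
    (i : ℝ) * T5 M x (i - 1) + (((5 : ℕ) : ℝ) - i) * T5 M x i ≤ 3 := by
  have h1 : a5 ((x : ℝ) / M) ≤ 3 / 5 := min_le_left _ _
  have h2 : a5 ((x : ℝ) / M) ≤ 3 - 4 * b5 ((x : ℝ) / M) := min_le_right _ _
  have h3 : c5 ((x : ℝ) / M) = 1 - 2 * b5 ((x : ℝ) / M) / 3 := rfl
  interval_cases i <;> simp [T5] <;> linarith

theorem b5_le {x z : ℝ} (h : b5 x ≤ z) :
    x ≤ 16 * z / 9 ∧ (z ≤ 3 / 5 → x ≤ (16 * z + 12) / 27) ∧ (3 / 5 ≤ z → x ≤ 4 * z / 3) := by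
  unfold b5 at h
  rw [max_le_iff, min_le_iff] at h
  obtain ⟨h1, h2⟩ := h
  refine ⟨by linarith, fun hz => ?_, fun hz => ?_⟩
  · rcases h2 with h2 | h2 <;> linarith
  · rcases h2 with h2 | h2 <;> linarith

theorem le_b5 {x y : ℝ} (h : y ≤ b5 x) :
    (y ≤ 3 / 8 → 16 * y / 9 ≤ x) ∧ (3 / 8 ≤ y → (16 * y + 12) / 27 ≤ x) ∧
      (3 / 8 ≤ y → 4 * y / 3 ≤ x) := by
  unfold b5 at h
  rw [le_max_iff, le_min_iff] at h
  rcases h with h | h
  · exact ⟨fun _ => by linarith, fun _ => by linarith, fun _ => by linarith⟩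
  · exact ⟨fun _ => by linarith [h.1], fun _ => by linarith [h.1], fun _ => by linarith [h.2]⟩

/-- parameters `i` with `i / M ≤ t` -/
theorem cu5 {M : ℕ} (hM : 0 < M) {t : ℝ} (ht : 0 ≤ t) (p : Fin M → Prop) [DecidablePred p]
    (h : ∀ i, p i → (i : ℝ) / M ≤ t) : ((univ.filter p).card : ℝ) ≤ M * t + 1 := by
  have hM' : (0 : ℝ) < M := by exact_mod_cast hM
  refine le_trans ?_ (count_up (M := M) (t := M * t) (by positivity))
  refine Nat.cast_le.2 (card_le_card ?_)
  intro i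
  simp only [mem_filter, mem_univ, true_and]
  intro hi
  have := h i hi
  rw [div_le_iff₀ hM'] at this
  linarith

/-- parameters `i` with `1 - t ≤ i / M` -/
theorem cd5 {M : ℕ} (hM : 0 < M) {t : ℝ} (ht : 0 ≤ t) (p : Fin M → Prop) [DecidablePred p]
    (h : ∀ i, p i → 1 - t ≤ (i : ℝ) / M) : ((univ.filter p).card : ℝ) ≤ M * t + 1 := by
  have hM' : (0 : ℝ) < M := by exact_mod_cast hM
  have h2 := count_down (M := M) (t := M * t) (by positivity)
  refine le_trans ?_ (h2.trans (by linarith))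
  refine Nat.cast_le.2 (card_le_card ?_)
  intro i
  simp only [mem_filter, mem_univ, true_and]
  intro hi
  have := h i hi
  rw [le_div_iff₀ hM'] at this
  linarith

theorem T5_count {M : ℕ} (hM : 0 < M) {z : ℝ} (hz : 0 ≤ z) :
    2 * ((univ.filter fun i : Fin M => a5 ((i : ℝ) / M) ≤ z).card : ℝ) +
      8 * ((univ.filter fun i : Fin M => b5 ((i : ℝ) / M) ≤ z).card : ℝ) +
      6 * ((univ.filter fun i : Fin M => c5 ((i : ℝ) / M) ≤ z).card : ℝ) ≤ 16 * (M * z + 1) := by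
  have hM' : (0 : ℝ) < M := by exact_mod_cast hM
  have hx1 : ∀ i : Fin M, (i : ℝ) / M < 1 := by
    intro i
    rw [div_lt_one hM']
    exact_mod_cast i.2
  have hA := count_all (fun i : Fin M => a5 ((i : ℝ) / M) ≤ z)
  have hB := count_all (fun i : Fin M => b5 ((i : ℝ) / M) ≤ z)
  have hC := count_all (fun i : Fin M => c5 ((i : ℝ) / M) ≤ z)
  -- small values of a
  have hA1 : z < 3 / 5 →
      ((univ.filter fun i : Fin M => a5 ((i : ℝ) / M) ≤ z).card : ℝ) ≤ M * (z / 3) + 1 := by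
    intro hz5
    refine cd5 hM (by positivity) _ fun i hi => ?_
    unfold a5 at hi
    rw [min_le_iff] at hi
    rcases hi with hi | hi
    · linarith
    · have h1 : (3 - z) / 4 ≤ b5 ((i : ℝ) / M) := by linarith
      have := (le_b5 h1).2.2 (by linarith)
      linarith
  have hC0 : z < 1 / 2 → ((univ.filter fun i : Fin M => c5 ((i : ℝ) / M) ≤ z).card : ℝ) = 0 := by
    intro hz5
    rw [Nat.cast_eq_zero, card_eq_zero, filter_eq_empty_iff]
    intro i _ hi
    unfold c5 at hi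
    have h1 : 3 * (1 - z) / 2 ≤ b5 ((i : ℝ) / M) := by linarith
    have := (le_b5 h1).2.2 (by linarith)
    have := hx1 i
    linarith
  rcases le_or_gt z (3 / 8) with h1 | h1
  · have hB1 := cu5 hM (t := 16 * z / 9) (by positivity) (fun i : Fin M => b5 ((i : ℝ) / M) ≤ z)
      (fun i hi => (b5_le hi).1)
    have := hA1 (by linarith)
    have := hC0 (by linarith)
    nlinarith [mul_nonneg hM'.le hz]
  rcases lt_or_ge z (1 / 2) with h2 | h2
  · have hB1 := cu5 hM (t := (16 * z + 12) / 27) (by positivity)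
      (fun i : Fin M => b5 ((i : ℝ) / M) ≤ z) (fun i hi => (b5_le hi).2.1 (by linarith))
    have := hA1 (by linarith)
    have := hC0 h2
    nlinarith [mul_nonneg hM'.le hz]
  rcases lt_or_ge z (3 / 5) with h3 | h3
  · have hB1 := cu5 hM (t := (16 * z + 12) / 27) (by positivity)
      (fun i : Fin M => b5 ((i : ℝ) / M) ≤ z) (fun i hi => (b5_le hi).2.1 (by linarith))
    have h4 := hA1 h3
    have hC1 := cd5 hM (t := 2 * z - 1) (by linarith) (fun i : Fin M => c5 ((i : ℝ) / M) ≤ z)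
      (fun i hi => by
        unfold c5 at hi
        have h5 : 3 * (1 - z) / 2 ≤ b5 ((i : ℝ) / M) := by linarith
        have := (le_b5 h5).2.2 (by linarith)
        linarith)
    nlinarith [mul_nonneg hM'.le hz]
  rcases lt_or_ge z (3 / 4) with h4 | h4
  · have hB1 := cu5 hM (t := 4 * z / 3) (by positivity)
      (fun i : Fin M => b5 ((i : ℝ) / M) ≤ z) (fun i hi => (b5_le hi).2.2 h3)
    have hC1 := cd5 hM (t := (8 * z - 3) / 9) (by linarith)
      (fun i : Fin M => c5 ((i : ℝ) / M) ≤ z)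
      (fun i hi => by
        unfold c5 at hi
        have h5 : 3 * (1 - z) / 2 ≤ b5 ((i : ℝ) / M) := by linarith
        have := (le_b5 h5).2.1 (by linarith)
        linarith)
    nlinarith [mul_nonneg hM'.le hz]
  rcases lt_or_ge z 1 with h5 | h5
  · have hC1 := cd5 hM (t := 1 - 8 * (1 - z) / 3) (by linarith)
      (fun i : Fin M => c5 ((i : ℝ) / M) ≤ z)
      (fun i hi => by
        unfold c5 at hi
        have h5 : 3 * (1 - z) / 2 ≤ b5 ((i : ℝ) / M) := by linarith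
        have := (le_b5 h5).1 (by linarith)
        linarith)
    nlinarith [mul_nonneg hM'.le hz]
  · nlinarith

theorem scheme5 {ε : ℝ} (hε : 0 < ε) : Scheme 5 3 ε := by
  obtain ⟨M, hM⟩ := exists_nat_gt (1 / ε)
  have hM0 : 0 < M := by
    have h1 : (0 : ℝ) < M := lt_trans (by positivity) hM
    exact_mod_cast h1
  have hM' : (0 : ℝ) < M := by exact_mod_cast hM0
  have hMε : 1 ≤ M * ε := by
    rw [div_lt_iff₀ hε] at hM
    exact hM.le
  refine ⟨M, T5 M, hM0, fun ω i hi => T5_sum ω hi, fun z hz => ?_⟩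
  have h1 := T5_count hM0 hz
  have h2 : ∑ j ∈ range 5, (((5 - 1 : ℕ).choose j : ℕ) : ℝ) *
      ((univ.filter fun ω => T5 M ω j ≤ z).card : ℝ) =
      2 * ((univ.filter fun i : Fin M => a5 ((i : ℝ) / M) ≤ z).card : ℝ) +
      8 * ((univ.filter fun i : Fin M => b5 ((i : ℝ) / M) ≤ z).card : ℝ) +
      6 * ((univ.filter fun i : Fin M => c5 ((i : ℝ) / M) ≤ z).card : ℝ) := by
    have e0 : Nat.choose 4 0 = 1 := rfl
    have e1 : Nat.choose 4 1 = 4 := rfl
    have e2 : Nat.choose 4 2 = 6 := rfl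
    have e3 : Nat.choose 4 3 = 4 := rfl
    have e4 : Nat.choose 4 4 = 1 := rfl
    simp only [sum_range_succ, sum_range_zero, Nat.add_one_sub_one, e0, e1, e2, e3, e4, T5]
    norm_num
    ring
  rw [h2]
  refine h1.trans ?_
  norm_num
  nlinarith

end Pool.Agent.Helper5.FracCover
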