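import Pool.Agent.Helper5.FracCover.SchemeA

/-!
Random thresholds from finite tables (problem MP_b0da8a_co).
-/

namespace Pool.Agent.Helper5.FracCover

open Finset

theorem scheme_of_weights {Ω : Type} [Fintype Ω] {k : ℕ} {g ε : ℝ} (wt : Ω → ℕ)
    (hwt : 0 < ∑ ω, wt ω) (T : Ω → ℕ → ℝ)
    (h1 : ∀ ω, ∀ i ≤ k, (i : ℝ) * T ω (i - 1) + ((k : ℝ) - i) * T ω i ≤ g)
    (h2 : ∀ z : ℝ, 0 ≤ z → ∑ j ∈ range k, ((k - 1).choose j : ℝ) *
      (∑ ω, if T ω j ≤ z then (wt ω : ℝ) else 0) ≤ 2 ^ (k - 1) * (∑ ω, (wt ω : ℝ)) * (z + ε)) :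
    Scheme k g ε := by
  classical
  have hcard : Fintype.card (Σ ω, Fin (wt ω)) = ∑ ω, wt ω := by
    rw [Fintype.card_sigma]
    simp
  have hne : Nonempty (Σ ω, Fin (wt ω)) := by
    rw [← Fintype.card_pos_iff, hcard]
    exact hwt
  refine scheme_of_fintype (Ω := Σ ω, Fin (wt ω)) (fun ω => T ω.1) (fun ω => h1 ω.1)
    (fun z hz => ?_)
  rw [hcard]
  push_cast
  refine le_trans (le_of_eq (sum_congr rfl fun j _ => ?_)) (h2 z hz)
  congr 1
  rw [← sum_boole, Fintype.sum_sigma]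
  refine sum_congr rfl fun ω _ => ?_
  show (∑ _y : Fin (wt ω), if T ω j ≤ z then (1 : ℝ) else 0) = _
  rw [sum_const, card_univ, Fintype.card_fin, nsmul_eq_mul]
  split_ifs <;> simp

/-- the thresholds: level `t` is the interval `[(t-1)/n, t/n]`, with opposite directions for even
and odd classes -/
noncomputable def TL (n M : ℕ) (t : ℕ → ℕ) (i : Fin M) (j : ℕ) : ℝ :=
  if Even j then ((t j : ℝ) - 1 + (i : ℝ) / M) / n else ((t j : ℝ) - (i : ℝ) / M) / n

theorem TL_sum {k n M G : ℕ} (hM : 0 < M) (hn : 0 < n) {t : ℕ → ℕ} (x : Fin M)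
    (ha : ∀ i ≤ k, i * t (i - 1) + (k - i) * t i ≤ G * n + min i (k - i)) {i : ℕ} (hi : i ≤ k) :
    (i : ℝ) * TL n M t x (i - 1) + ((k : ℝ) - i) * TL n M t x i ≤ G := by
  have hM' : (0 : ℝ) < M := by exact_mod_cast hM
  have hn' : (0 : ℝ) < n := by exact_mod_cast hn
  obtain ⟨v, hv⟩ : ∃ v : ℝ, v = (x : ℝ) / M := ⟨_, rfl⟩
  have hv0 : 0 ≤ v := by rw [hv]; positivity
  have hv1 : v ≤ 1 := by
    rw [hv, div_le_one hM']
    exact_mod_cast x.2.le
  have hiR : (i : ℝ) ≤ k := by exact_mod_cast hi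
  have hi0 : (0 : ℝ) ≤ i := Nat.cast_nonneg i
  have h1 : ((i * t (i - 1) + (k - i) * t i : ℕ) : ℝ) ≤ ((G * n + min i (k - i) : ℕ) : ℝ) :=
    Nat.cast_le.2 (ha i hi)
  push_cast [Nat.cast_sub hi] at h1
  -- the loss is at least the minimum
  have hloss : ∀ y : ℝ, 0 ≤ y → y ≤ 1 →
      min (i : ℝ) ((k : ℝ) - i) ≤ (i : ℝ) * y + ((k : ℝ) - i) * (1 - y) := by
    intro y hy0 hy1
    have h3 : min (i : ℝ) ((k : ℝ) - i) * y ≤ (i : ℝ) * y :=
      mul_le_mul_of_nonneg_right (min_le_left _ _) hy0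
    have h4 : min (i : ℝ) ((k : ℝ) - i) * (1 - y) ≤ ((k : ℝ) - i) * (1 - y) :=
      mul_le_mul_of_nonneg_right (min_le_right _ _) (by linarith)
    nlinarith
  unfold TL
  rw [← hv]
  rcases Nat.eq_zero_or_pos i with h0 | hpos
  · subst h0
    have h5 := hloss 0 le_rfl zero_le_one
    have h6 : (0 : ℝ) ≤ (k : ℝ) := Nat.cast_nonneg k
    simp only [Nat.cast_zero, zero_mul, sub_zero, zero_add, Even.zero, if_true] at h1 ⊢
    rw [min_eq_left h6] at h1
    rw [← mul_div_assoc, div_le_iff₀ hn']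
    nlinarith
  · have h2 : Even i ↔ ¬ Even (i - 1) := by
      have h3 : i = (i - 1) + 1 := by omega
      conv_lhs => rw [h3]
      exact Nat.even_add_one
    by_cases hE : Even i
    · have hE' : ¬ Even (i - 1) := h2.1 hE
      rw [if_neg hE', if_pos hE, ← mul_div_assoc, ← mul_div_assoc, ← add_div, div_le_iff₀ hn']
      have h5 := hloss v hv0 hv1
      nlinarith
    · have hE' : Even (i - 1) := by
        by_contra hc
        exact hE (h2.2 hc)
      rw [if_pos hE', if_neg hE, ← mul_div_assoc, ← mul_div_assoc, ← add_div, div_le_iff₀ hn']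
      have h5 := hloss (1 - v) (by linarith) (by linarith)
      nlinarith

/-- counting the parameters with threshold at most `z` -/
theorem TL_count {n M : ℕ} (hM : 0 < M) (hn : 0 < n) (t : ℕ → ℕ) {j l : ℕ}
    (hl : 1 ≤ l) {z : ℝ} (hz1 : (l : ℝ) - 1 ≤ n * z) (hz2 : n * z < l) :
    ((univ.filter fun i : Fin M => TL n M t i j ≤ z).card : ℝ) ≤
      (if t j ≤ l - 1 then (M : ℝ) * (1 - (n * z - (l - 1))) else 0) +
      (if t j ≤ l then (M : ℝ) * (n * z - (l - 1)) + 1 else 0) := by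
  have hM' : (0 : ℝ) < M := by exact_mod_cast hM
  have hn' : (0 : ℝ) < n := by exact_mod_cast hn
  obtain ⟨θ, hθ⟩ : ∃ θ : ℝ, θ = n * z - (l - 1) := ⟨_, rfl⟩
  have hθ0 : 0 ≤ θ := by rw [hθ]; linarith
  have hθ1 : θ < 1 := by rw [hθ]; linarith
  rw [← hθ]
  rcases Nat.lt_or_ge l (t j) with h | h
  · -- above
    have h1 : (univ.filter fun i : Fin M => TL n M t i j ≤ z) = ∅ := by
      rw [filter_eq_empty_iff]
      intro i _ hle
      have hx0 : 0 ≤ (i : ℝ) / M := by positivity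
      have hx1 : (i : ℝ) / M ≤ 1 := by
        rw [div_le_one hM']
        exact_mod_cast i.2.le
      have h2 : (l : ℝ) + 1 ≤ t j := by exact_mod_cast h
      unfold TL at hle
      split_ifs at hle <;> rw [div_le_iff₀ hn'] at hle <;> nlinarith
    rw [h1, card_empty, if_neg (by omega), if_neg (by omega)]
    simp
  · rw [if_pos h]
    rcases Nat.lt_or_ge (l - 1) (t j) with h2 | h2
    · have h3 : t j = l := by omega
      rw [if_neg (by omega), zero_add]
      have hlR : ((t j : ℕ) : ℝ) = l := by rw [h3]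
      unfold TL
      by_cases hE : Even j
      · simp only [if_pos hE, hlR]
        refine le_trans ?_ (count_up (M := M) (t := M * θ) (by positivity))
        refine Nat.cast_le.2 (card_le_card ?_)
        intro i
        simp only [mem_filter, mem_univ, true_and]
        intro h4
        rw [div_le_iff₀ hn'] at h4
        have h5 : (i : ℝ) / M ≤ θ := by rw [hθ]; linarith
        rw [div_le_iff₀ hM'] at h5
        linarith
      · simp only [if_neg hE, hlR]
        have h6 : ((univ.filter fun i : Fin M => ((l : ℝ) - (i : ℝ) / M) / n ≤ z).card : ℝ) ≤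
            M * θ := by
          refine le_trans ?_ (count_down (M := M) (t := M * θ) (by positivity))
          refine Nat.cast_le.2 (card_le_card ?_)
          intro i
          simp only [mem_filter, mem_univ, true_and]
          intro h4
          rw [div_le_iff₀ hn'] at h4
          have h5 : 1 - θ ≤ (i : ℝ) / M := by rw [hθ]; linarith
          rw [le_div_iff₀ hM'] at h5
          linarith
        linarith
    · rw [if_pos h2]
      have h3 := count_all (fun i : Fin M => TL n M t i j ≤ z)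
      nlinarith

theorem scheme_of_levels {k n G C : ℕ} (hn : 0 < n) (t : Fin C → ℕ → ℕ)
    (wt : Fin C → ℕ) (hW : 0 < ∑ c, wt c)
    (ha : ∀ c, ∀ i ≤ k, i * t c (i - 1) + (k - i) * t c i ≤ G * n + min i (k - i))
    (hb : ∀ l ≤ n, n * ∑ j ∈ range k, (k - 1).choose j * ∑ c, (if t c j ≤ l then wt c else 0) ≤
      l * (2 ^ (k - 1) * ∑ c, wt c)) {ε : ℝ} (hε : 0 < ε) (hk : 1 ≤ k) :
    Scheme k G ε := by
  obtain ⟨M, hM⟩ := exists_nat_gt (1 / ε)
  have hM0 : 0 < M := by
    have h1 : (0 : ℝ) < M := lt_trans (by positivity) hM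
    exact_mod_cast h1
  have hM' : (0 : ℝ) < M := by exact_mod_cast hM0
  have hn' : (0 : ℝ) < n := by exact_mod_cast hn
  have hMε : 1 ≤ M * ε := by
    rw [div_lt_iff₀ hε] at hM
    exact hM.le
  obtain ⟨W, hWd⟩ : ∃ W : ℝ, W = ∑ c, (wt c : ℝ) := ⟨_, rfl⟩
  have hW0 : 0 < W := by
    rw [hWd]
    exact_mod_cast hW
  have hP : (0 : ℝ) < 2 ^ (k - 1) := by positivity
  have hsumw : ∑ ω : Fin C × Fin M, ((wt ω.1 : ℕ) : ℝ) = W * M := by
    rw [Fintype.sum_prod_type, hWd, sum_mul]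
    refine sum_congr rfl fun c _ => ?_
    show (∑ _y : Fin M, ((wt c : ℕ) : ℝ)) = _
    rw [sum_const, card_univ, Fintype.card_fin, nsmul_eq_mul]
    ring
  have hsc : ∑ j ∈ range k, ((k - 1).choose j : ℝ) = 2 ^ (k - 1) := by
    have := Nat.sum_range_choose (k - 1)
    rw [Nat.sub_add_cancel hk] at this
    exact_mod_cast this
  refine scheme_of_weights (Ω := Fin C × Fin M) (fun ω => wt ω.1) ?_
    (fun ω => TL n M (t ω.1) ω.2) (fun ω i hi => TL_sum hM0 hn ω.2 (ha ω.1) hi) (fun z hz => ?_)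
  · have h1 : (0 : ℝ) < ((∑ ω : Fin C × Fin M, wt ω.1 : ℕ) : ℝ) := by
      push_cast
      rw [hsumw]
      positivity
    exact_mod_cast h1
  rw [hsumw]
  have hinner : ∀ j, ∑ ω : Fin C × Fin M, (if TL n M (t ω.1) ω.2 j ≤ z then ((wt ω.1 : ℕ) : ℝ) else 0) =
      ∑ c, (wt c : ℝ) * ((univ.filter fun i : Fin M => TL n M (t c) i j ≤ z).card : ℝ) := by
    intro j
    rw [Fintype.sum_prod_type]
    refine sum_congr rfl fun c _ => ?_
    rw [← sum_boole, mul_sum]
    refine sum_congr rfl fun i _ => ?_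
    split_ifs <;> simp
  simp_rw [hinner]
  rcases lt_or_ge z 1 with hz1 | hz1
  · -- the level of `z`
    obtain ⟨l, hldef⟩ : ∃ l : ℕ, l = ⌊(n : ℝ) * z⌋₊ + 1 := ⟨_, rfl⟩
    have hnz : 0 ≤ (n : ℝ) * z := by positivity
    have h1 : (l : ℝ) - 1 ≤ n * z := by
      rw [hldef]
      push_cast
      linarith [Nat.floor_le hnz]
    have h2 : (n : ℝ) * z < l := by
      rw [hldef]
      push_cast
      exact Nat.lt_floor_add_one _
    have hl1 : 1 ≤ l := by omega
    have hln : l ≤ n := by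
      have : (l : ℝ) - 1 < n := by nlinarith
      have : (l : ℝ) < n + 1 := by linarith
      exact_mod_cast Nat.lt_succ_iff.1 (by exact_mod_cast this)
    obtain ⟨θ, hθ⟩ : ∃ θ : ℝ, θ = n * z - (l - 1) := ⟨_, rfl⟩
    have hθ0 : 0 ≤ θ := by rw [hθ]; linarith
    have hθ1 : θ < 1 := by rw [hθ]; linarith
    obtain ⟨F, hF⟩ : ∃ F : ℕ → ℝ, F = fun l => ∑ j ∈ range k, ((k - 1).choose j : ℝ) *
      ∑ c, (if t c j ≤ l then (wt c : ℝ) else 0) := ⟨_, rfl⟩
    have hFb : ∀ l ≤ n, n * F l ≤ l * (2 ^ (k - 1) * W) := by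
      intro l hl
      have h3 : ((n * ∑ j ∈ range k, (k - 1).choose j * ∑ c, (if t c j ≤ l then wt c else 0) : ℕ) : ℝ)
          ≤ ((l * (2 ^ (k - 1) * ∑ c, wt c) : ℕ) : ℝ) := Nat.cast_le.2 (hb l hl)
      push_cast at h3
      rw [hF, hWd]
      exact h3
    have hFle : F l ≤ 2 ^ (k - 1) * W := by
      rw [hF, ← hsc, sum_mul, hWd]
      refine sum_le_sum fun j _ => mul_le_mul_of_nonneg_left ?_ (Nat.cast_nonneg _)
      refine sum_le_sum fun c _ => ?_
      split_ifs
      · exact le_rfl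
      · exact Nat.cast_nonneg _
    have h4 : ∑ j ∈ range k, ((k - 1).choose j : ℝ) *
        ∑ c, (wt c : ℝ) * ((univ.filter fun i : Fin M => TL n M (t c) i j ≤ z).card : ℝ) ≤
        M * (1 - θ) * F (l - 1) + (M * θ + 1) * F l := by
      rw [hF]
      simp only []
      rw [mul_sum, mul_sum, ← sum_add_distrib]
      refine sum_le_sum fun j _ => ?_
      have h5 : M * (1 - θ) * (((k - 1).choose j : ℝ) * ∑ c, (if t c j ≤ l - 1 then (wt c : ℝ) else 0)) +
          (M * θ + 1) * (((k - 1).choose j : ℝ) * ∑ c, (if t c j ≤ l then (wt c : ℝ) else 0)) =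
          ((k - 1).choose j : ℝ) * ∑ c, (wt c : ℝ) *
            ((if t c j ≤ l - 1 then (M : ℝ) * (1 - θ) else 0) +
              (if t c j ≤ l then (M : ℝ) * θ + 1 else 0)) := by
        rw [mul_sum, mul_sum, mul_sum, mul_sum, mul_sum, ← sum_add_distrib]
        refine sum_congr rfl fun c _ => ?_
        split_ifs <;> ring
      rw [h5]
      refine mul_le_mul_of_nonneg_left (sum_le_sum fun c _ => ?_) (Nat.cast_nonneg _)
      refine mul_le_mul_of_nonneg_left ?_ (Nat.cast_nonneg _)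
      have h6 := TL_count (j := j) hM0 hn (t c) hl1 h1 h2
      rw [← hθ] at h6
      exact h6
    refine h4.trans ?_
    have h7 := hFb l hln
    have h8 := hFb (l - 1) (by omega)
    rw [Nat.cast_sub hl1, Nat.cast_one] at h8
    have h9 : n * (M * (1 - θ) * F (l - 1) + (M * θ + 1) * F l) ≤
        n * (2 ^ (k - 1) * (W * M) * (z + ε)) := by
      have h10 : M * (1 - θ) * (n * F (l - 1)) ≤ M * (1 - θ) * (((l : ℝ) - 1) * (2 ^ (k - 1) * W)) := by
        apply mul_le_mul_of_nonneg_left h8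
        have : 0 ≤ 1 - θ := by linarith
        positivity
      have h11 : M * θ * (n * F l) ≤ M * θ * (l * (2 ^ (k - 1) * W)) := by
        apply mul_le_mul_of_nonneg_left h7
        positivity
      have h12 : n * F l ≤ n * (2 ^ (k - 1) * W * (M * ε)) := by
        apply mul_le_mul_of_nonneg_left _ hn'.le
        calc F l ≤ 2 ^ (k - 1) * W := hFle
          _ = 2 ^ (k - 1) * W * 1 := (mul_one _).symm
          _ ≤ 2 ^ (k - 1) * W * (M * ε) := mul_le_mul_of_nonneg_left hMε (by positivity)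
      calc n * (M * (1 - θ) * F (l - 1) + (M * θ + 1) * F l)
          = M * (1 - θ) * (n * F (l - 1)) + M * θ * (n * F l) + n * F l := by ring
        _ ≤ M * (1 - θ) * (((l : ℝ) - 1) * (2 ^ (k - 1) * W)) + M * θ * (l * (2 ^ (k - 1) * W)) +
            n * (2 ^ (k - 1) * W * (M * ε)) := by linarith
        _ = M * (2 ^ (k - 1) * W) * ((l : ℝ) - 1 + θ) + n * (2 ^ (k - 1) * W * (M * ε)) := by ring
        _ = n * (2 ^ (k - 1) * (W * M) * (z + ε)) := by
            rw [hθ]
            ring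
    exact le_of_mul_le_mul_left h9 hn'
  · have h3 : ∑ j ∈ range k, ((k - 1).choose j : ℝ) *
        ∑ c, (wt c : ℝ) * ((univ.filter fun i : Fin M => TL n M (t c) i j ≤ z).card : ℝ) ≤
        2 ^ (k - 1) * (W * M) := by
      rw [← hsc, sum_mul]
      refine sum_le_sum fun j _ => mul_le_mul_of_nonneg_left ?_ (Nat.cast_nonneg _)
      rw [hWd, sum_mul]
      exact sum_le_sum fun c _ => mul_le_mul_of_nonneg_left (count_all _) (Nat.cast_nonneg _)
    refine h3.trans ?_
    have h4 : 0 < (2 : ℝ) ^ (k - 1) * (W * M) := by positivity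
    nlinarith

end Pool.Agent.Helper5.FracCover
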