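import Mathlib
import Pool.Agent.Helper5.FracCover.Defs

/-!
Rounding of fractional covers by `(k-1)`-sets with the help of random two-colourings of the
vertices (problem MP_b0da8a_co).
-/

namespace Pool.Agent.Helper5.FracCover

open Finset Pool.Agent.Helper37.FracTuza

variable {n : ℕ}

/-- A family of random thresholds for the numbers `0, …, k-1`: the threshold of a `(k-1)`-set with
`j` red elements is `T ω j`. The sum of the thresholds of the `(k-1)`-subsets of a `k`-set is at
most `g`, and the threshold of a random `(k-1)`-set is, up to `ε`, stochastically at least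
uniform. -/
def Scheme (k : ℕ) (g ε : ℝ) : Prop :=
  ∃ (m : ℕ) (T : Fin m → ℕ → ℝ), 0 < m ∧
    (∀ ω, ∀ i ≤ k, (i : ℝ) * T ω (i - 1) + ((k : ℝ) - i) * T ω i ≤ g) ∧
    ∀ z : ℝ, 0 ≤ z → ∑ j ∈ range k, ((k - 1).choose j : ℝ) *
      ((univ.filter fun ω => T ω j ≤ z).card : ℝ) ≤ 2 ^ (k - 1) * m * (z + ε)

theorem scheme_mono {k : ℕ} {g g' ε : ℝ} (h : Scheme k g ε) (hg : g ≤ g') : Scheme k g' ε := by
  obtain ⟨m, T, hm, h1, h2⟩ := h
  exact ⟨m, T, hm, fun ω i hi => (h1 ω i hi).trans hg, h2⟩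

theorem sum_powerset_inter (f s : Finset (Fin n)) (hfs : Disjoint f s) (φ : ℕ → ℝ) :
    ∑ R ∈ (f ∪ s).powerset, φ (f ∩ R).card =
      2 ^ s.card * ∑ R ∈ f.powerset, φ R.card := by
  classical
  induction s using Finset.induction_on with
  | empty =>
    rw [union_empty, card_empty, pow_zero, one_mul]
    refine sum_congr rfl fun R hR => ?_
    rw [inter_eq_right.2 (mem_powerset.1 hR)]
  | insert a s ha ih =>
    have hfs' : Disjoint f s := hfs.mono_right (subset_insert a s)
    have haf : a ∉ f := fun h => (Finset.disjoint_left.1 hfs h) (mem_insert_self a s)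
    have hau : a ∉ f ∪ s := by
      rw [mem_union]
      tauto
    rw [union_insert, sum_powerset_insert hau, card_insert_of_notMem ha, pow_succ]
    have h1 : ∀ R, (f ∩ insert a R) = f ∩ R := by
      intro R
      ext x
      simp only [mem_inter, mem_insert]
      constructor
      · rintro ⟨h2, h3 | h3⟩
        · exact absurd (h3 ▸ h2) haf
        · exact ⟨h2, h3⟩
      · rintro ⟨h2, h3⟩
        exact ⟨h2, Or.inr h3⟩
    simp_rw [h1]
    rw [ih hfs']
    ring

theorem sum_univ_inter (f : Finset (Fin n)) (φ : ℕ → ℝ) :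
    ∑ R : Finset (Fin n), φ (f ∩ R).card =
      2 ^ (n - f.card) * ∑ j ∈ range (f.card + 1), (f.card.choose j : ℝ) * φ j := by
  classical
  have h1 := sum_powerset_inter f fᶜ disjoint_compl_right φ
  rw [union_compl, powerset_univ, card_compl, Fintype.card_fin, sum_powerset_apply_card] at h1
  rw [h1]
  congr 1
  refine sum_congr rfl fun j _ => ?_
  rw [nsmul_eq_mul]

theorem sum_facets {k : ℕ} {e : Finset (Fin n)} (he : e.card = k) (hk : 1 ≤ k)
    (φ : Finset (Fin n) → ℝ) :
    ∑ S ∈ e.powersetCard (k - 1), φ S = ∑ v ∈ e, φ (e.erase v) := by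
  classical
  symm
  refine sum_bij (fun v _ => e.erase v) ?_ ?_ ?_ (fun _ _ => rfl)
  · intro v hv
    rw [mem_powersetCard]
    exact ⟨erase_subset v e, by rw [card_erase_of_mem hv, he]⟩
  · intro v hv v' hv' h
    by_contra hne
    have h1 : v ∈ e.erase v' := mem_erase.2 ⟨hne, hv⟩
    rw [← h] at h1
    exact notMem_erase v e h1
  · intro S hS
    rw [mem_powersetCard] at hS
    have h1 : (e \ S).card = 1 := by
      rw [card_sdiff_of_subset hS.1, he, hS.2]
      omega
    obtain ⟨v, hv⟩ := card_eq_one.1 h1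
    have hve : v ∈ e \ S := by rw [hv]; exact mem_singleton_self v
    rw [mem_sdiff] at hve
    refine ⟨v, hve.1, ?_⟩
    ext x
    rw [mem_erase]
    constructor
    · rintro ⟨hx1, hx2⟩
      by_contra hx3
      have : x ∈ e \ S := mem_sdiff.2 ⟨hx2, hx3⟩
      rw [hv, mem_singleton] at this
      exact hx1 this
    · intro hx
      refine ⟨fun h => hve.2 (h ▸ hx), hS.1 hx⟩

theorem sum_facets_inter {k : ℕ} {e R : Finset (Fin n)} (he : e.card = k) (φ : ℕ → ℝ) :
    ∑ v ∈ e, φ ((e.erase v) ∩ R).card =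
      ((e ∩ R).card : ℝ) * φ ((e ∩ R).card - 1) + ((k : ℝ) - (e ∩ R).card) * φ (e ∩ R).card := by
  classical
  rw [← sum_filter_add_sum_filter_not e (fun v => v ∈ R)]
  congr 1
  · have h1 : ∀ v ∈ e.filter (fun v => v ∈ R), φ ((e.erase v) ∩ R).card = φ ((e ∩ R).card - 1) := by
      intro v hv
      rw [mem_filter] at hv
      rw [erase_inter, card_erase_of_mem (mem_inter.2 hv)]
    rw [sum_congr rfl h1, sum_const, nsmul_eq_mul, filter_mem_eq_inter]
  · have h1 : ∀ v ∈ e.filter (fun v => ¬ v ∈ R), φ ((e.erase v) ∩ R).card = φ (e ∩ R).card := by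
      intro v hv
      rw [mem_filter] at hv
      rw [erase_inter, erase_eq_of_notMem (fun h => hv.2 (mem_inter.1 h).2)]
    rw [sum_congr rfl h1, sum_const, nsmul_eq_mul]
    congr 1
    have h2 : (e.filter fun v => ¬ v ∈ R).card = k - (e ∩ R).card := by
      rw [← sdiff_eq_filter, card_sdiff, he, inter_comm]
    rw [h2, Nat.cast_sub (by rw [← he]; exact card_le_card inter_subset_left)]

theorem totalWeight_nonneg {k : ℕ} {H : Finset (Finset (Fin n))} {w : Finset (Fin n) → ℝ}
    (hw : IsFractionalCover k H w) : 0 ≤ totalWeight k w :=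
  sum_nonneg fun S _ => hw.1 S

theorem round_eps {k : ℕ} (hk : 1 ≤ k) {g ε : ℝ} (hg : 0 ≤ g) (hS : Scheme k g ε)
    {H : Finset (Finset (Fin n))} (hH : ∀ e ∈ H, e.card = k) {w : Finset (Fin n) → ℝ}
    (hw : IsFractionalCover k H w) :
    ∃ C, IsCover k H C ∧ (C.card : ℝ) ≤ g * totalWeight k w +
      ε * (((univ : Finset (Fin n)).powersetCard (k - 1)).card : ℝ) := by
  classical
  obtain ⟨m, T, hm, hT1, hT2⟩ := hS
  obtain ⟨N, hN⟩ : ∃ N : ℝ, N = (((univ : Finset (Fin n)).powersetCard (k - 1)).card : ℝ) :=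
    ⟨_, rfl⟩
  obtain ⟨C, hC⟩ : ∃ C : Finset (Fin n) → Fin m → Finset (Finset (Fin n)),
      C = fun R ω => ((univ : Finset (Fin n)).powersetCard (k - 1)).filter
        fun f => T ω (f ∩ R).card ≤ g * w f := ⟨_, rfl⟩
  have hcov : ∀ R ω, IsCover k H (C R ω) := by
    intro R ω
    refine ⟨fun S hSC => ?_, fun e he => ?_⟩
    · rw [hC] at hSC
      exact (mem_powersetCard.1 (mem_filter.1 hSC).1).2
    · by_contra hcon
      push Not at hcon
      have h1 : ∀ f ∈ e.powersetCard (k - 1), g * w f < T ω (f ∩ R).card := by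
        intro f hf
        rw [mem_powersetCard] at hf
        by_contra hle
        push Not at hle
        refine hcon f ?_ hf.1
        rw [hC]
        exact mem_filter.2 ⟨mem_powersetCard.2 ⟨subset_univ f, hf.2⟩, hle⟩
      have hne : (e.powersetCard (k - 1)).Nonempty := by
        rw [powersetCard_nonempty, hH e he]
        omega
      have h2 := sum_lt_sum_of_nonempty hne h1
      rw [← mul_sum, sum_facets (hH e he) hk (fun f => T ω (f ∩ R).card),
        sum_facets_inter (hH e he) (T ω)] at h2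
      have h3 := hT1 ω (e ∩ R).card (by rw [← hH e he]; exact card_le_card inter_subset_left)
      have h4 := hw.2 e he
      have h5 : g * 1 ≤ g * ∑ S ∈ e.powersetCard (k - 1), w S := mul_le_mul_of_nonneg_left h4 hg
      linarith
  have hmR : (0 : ℝ) < m := by exact_mod_cast hm
  have hsum : ∑ R : Finset (Fin n), ∑ ω : Fin m, ((C R ω).card : ℝ) ≤
      ∑ _R : Finset (Fin n), ∑ _ω : Fin m, (g * totalWeight k w + ε * N) := by
    have h1 : ∀ R ω, ((C R ω).card : ℝ) = ∑ f ∈ (univ : Finset (Fin n)).powersetCard (k - 1),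
        if T ω (f ∩ R).card ≤ g * w f then (1 : ℝ) else 0 := by
      intro R ω
      rw [hC, sum_boole]
    have h2 : ∑ R : Finset (Fin n), ∑ ω : Fin m, ((C R ω).card : ℝ) =
        ∑ f ∈ (univ : Finset (Fin n)).powersetCard (k - 1), ∑ R : Finset (Fin n),
          ((univ.filter fun ω => T ω (f ∩ R).card ≤ g * w f).card : ℝ) := by
      simp_rw [h1]
      have h8 : ∀ R : Finset (Fin n), ∑ ω : Fin m, ∑ f ∈ (univ : Finset (Fin n)).powersetCard (k - 1),
          (if T ω (f ∩ R).card ≤ g * w f then (1 : ℝ) else 0) =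
          ∑ f ∈ (univ : Finset (Fin n)).powersetCard (k - 1),
            ((univ.filter fun ω => T ω (f ∩ R).card ≤ g * w f).card : ℝ) := by
        intro R
        rw [sum_comm]
        exact sum_congr rfl fun f _ => sum_boole _ _
      simp_rw [h8]
      rw [sum_comm]
    rw [h2]
    have h3 : ∀ f ∈ (univ : Finset (Fin n)).powersetCard (k - 1),
        ∑ R : Finset (Fin n), ((univ.filter fun ω => T ω (f ∩ R).card ≤ g * w f).card : ℝ) ≤
          2 ^ n * m * (g * w f + ε) := by
      intro f hf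
      have hfc := (mem_powersetCard.1 hf).2
      have hfn : f.card ≤ n := by simpa using card_le_univ f
      have h4 := sum_univ_inter f
        (fun j => ((univ.filter fun ω => T ω j ≤ g * w f).card : ℝ))
      rw [h4, hfc]
      have h5 := hT2 (g * w f) (mul_nonneg hg (hw.1 f))
      have h6 : range (k - 1 + 1) = range k := by
        rw [Nat.sub_add_cancel hk]
      rw [h6]
      calc (2 : ℝ) ^ (n - (k - 1)) * ∑ j ∈ range k, ((k - 1).choose j : ℝ) *
            ((univ.filter fun ω => T ω j ≤ g * w f).card : ℝ)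
          ≤ (2 : ℝ) ^ (n - (k - 1)) * (2 ^ (k - 1) * m * (g * w f + ε)) :=
            mul_le_mul_of_nonneg_left h5 (by positivity)
        _ = (2 : ℝ) ^ (n - (k - 1) + (k - 1)) * m * (g * w f + ε) := by
            rw [pow_add]
            ring
        _ = _ := by
            rw [Nat.sub_add_cancel (by omega)]
    refine (sum_le_sum h3).trans_eq ?_
    rw [← mul_sum, sum_add_distrib, ← mul_sum, sum_const, nsmul_eq_mul, ← hN]
    simp only [sum_const, card_univ, Fintype.card_fin, Fintype.card_finset, nsmul_eq_mul]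
    unfold totalWeight
    push_cast
    ring
  have h7 : ∃ R ∈ (univ : Finset (Finset (Fin n))), ∑ ω : Fin m, ((C R ω).card : ℝ) ≤
      ∑ _ω : Fin m, (g * totalWeight k w + ε * N) :=
    exists_le_of_sum_le ⟨∅, mem_univ _⟩ hsum
  obtain ⟨R, _, hR⟩ := h7
  have : Nonempty (Fin m) := ⟨⟨0, hm⟩⟩
  obtain ⟨ω, _, hω⟩ := exists_le_of_sum_le (univ_nonempty (α := Fin m)) hR
  exact ⟨C R ω, hcov R ω, hN ▸ hω⟩

theorem rounding {k : ℕ} (hk : 1 ≤ k) {g : ℝ} (hg : 0 ≤ g)
    (hS : ∀ ε : ℝ, 0 < ε → Scheme k (g + ε) ε)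
    {H : Finset (Finset (Fin n))} (hH : ∀ e ∈ H, e.card = k) {w : Finset (Fin n) → ℝ}
    (hw : IsFractionalCover k H w) :
    ∃ C, IsCover k H C ∧ (C.card : ℝ) ≤ g * totalWeight k w := by
  classical
  obtain ⟨N, hN⟩ : ∃ N : ℝ, N = (((univ : Finset (Fin n)).powersetCard (k - 1)).card : ℝ) :=
    ⟨_, rfl⟩
  have hN0 : 0 ≤ N := by rw [hN]; positivity
  have hW := totalWeight_nonneg hw
  have hex : ∃ c : ℕ, ∃ C, IsCover k H C ∧ C.card = c := by
    obtain ⟨C, hC, _⟩ := round_eps hk (by linarith) (hS 1 one_pos) hH hw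
    exact ⟨C.card, C, hC, rfl⟩
  obtain ⟨C, hC, hCc⟩ := Nat.find_spec hex
  refine ⟨C, hC, le_of_forall_pos_le_add fun δ hδ => ?_⟩
  obtain ⟨ε, hεdef⟩ : ∃ ε : ℝ, ε = δ / (totalWeight k w + N + 1) := ⟨_, rfl⟩
  have hε : 0 < ε := by rw [hεdef]; positivity
  obtain ⟨C', hC', hC'2⟩ := round_eps hk (by linarith) (hS ε hε) hH hw
  have h1 : C.card ≤ C'.card := by
    rw [hCc]
    exact Nat.find_min' hex ⟨C', hC', rfl⟩
  have h2 : (C.card : ℝ) ≤ C'.card := by exact_mod_cast h1
  have h3 : ε * (totalWeight k w + N) ≤ δ := by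
    rw [hεdef, div_mul_eq_mul_div, div_le_iff₀ (by positivity)]
    nlinarith
  rw [← hN] at hC'2
  nlinarith

end Pool.Agent.Helper5.FracCover
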