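import Pool.Agent.Helper5.FracCover.Rounding

/-!
Random thresholds for all `k` (problem MP_b0da8a_co).
-/

namespace Pool.Agent.Helper5.FracCover

open Finset

theorem scheme_of_fintype {Ω : Type} [Fintype Ω] [Nonempty Ω] {k : ℕ} {g ε : ℝ}
    (T : Ω → ℕ → ℝ)
    (h1 : ∀ ω, ∀ i ≤ k, (i : ℝ) * T ω (i - 1) + ((k : ℝ) - i) * T ω i ≤ g)
    (h2 : ∀ z : ℝ, 0 ≤ z → ∑ j ∈ range k, ((k - 1).choose j : ℝ) *
      ((univ.filter fun ω => T ω j ≤ z).card : ℝ) ≤ 2 ^ (k - 1) * Fintype.card Ω * (z + ε)) :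
    Scheme k g ε := by
  classical
  obtain ⟨e⟩ : Nonempty (Ω ≃ Fin (Fintype.card Ω)) := ⟨Fintype.equivFin Ω⟩
  refine ⟨Fintype.card Ω, fun ω => T (e.symm ω), Fintype.card_pos, fun ω => h1 _, fun z hz => ?_⟩
  refine le_trans (le_of_eq (sum_congr rfl fun j _ => ?_)) (h2 z hz)
  congr 2
  refine card_bij (fun ω _ => e.symm ω) ?_ ?_ ?_
  · intro ω hω
    rw [mem_filter] at hω ⊢
    exact ⟨mem_univ _, hω.2⟩
  · intro ω _ ω' _ h
    exact e.symm.injective h
  · intro ω hω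
    rw [mem_filter] at hω
    exact ⟨e ω, mem_filter.2 ⟨mem_univ _, by simpa using hω.2⟩, by simp⟩

theorem count_up {M : ℕ} {t : ℝ} (ht : 0 ≤ t) :
    ((univ.filter fun i : Fin M => (i : ℝ) ≤ t).card : ℝ) ≤ t + 1 := by
  have h1 : (univ.filter fun i : Fin M => (i : ℝ) ≤ t).card ≤ (range (⌊t⌋₊ + 1)).card := by
    refine card_le_card_of_injOn (fun i => (i : ℕ)) ?_ ?_
    · intro i hi
      have hi' := (mem_filter.1 hi).2
      have h2 : (i : ℕ) ≤ ⌊t⌋₊ := Nat.le_floor hi'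
      exact mem_coe.2 (mem_range.2 (Nat.lt_succ_of_le h2))
    · intro i _ i' _ h
      exact Fin.ext h
  rw [card_range] at h1
  calc ((univ.filter fun i : Fin M => (i : ℝ) ≤ t).card : ℝ) ≤ ((⌊t⌋₊ + 1 : ℕ) : ℝ) := by
        exact_mod_cast h1
    _ ≤ t + 1 := by
        push_cast
        linarith [Nat.floor_le ht]

theorem count_down {M : ℕ} {t : ℝ} (ht : 0 ≤ t) :
    ((univ.filter fun i : Fin M => (M : ℝ) - i ≤ t).card : ℝ) ≤ t := by
  have h1 : (univ.filter fun i : Fin M => (M : ℝ) - i ≤ t).card ≤ (Icc 1 ⌊t⌋₊).card := by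
    refine card_le_card_of_injOn (fun i => M - (i : ℕ)) ?_ ?_
    · intro i hi
      have hi' := (mem_filter.1 hi).2
      have h3 : (i : ℕ) < M := i.2
      have h2 : M - (i : ℕ) ≤ ⌊t⌋₊ := by
        apply Nat.le_floor
        rw [Nat.cast_sub h3.le]
        exact hi'
      have h4 : 1 ≤ M - (i : ℕ) := by omega
      exact mem_coe.2 (mem_Icc.2 ⟨h4, h2⟩)
    · intro i _ i' _ h
      have h3 := i.2
      have h4 := i'.2
      simp only at h
      exact Fin.ext (by omega)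
  rw [Nat.card_Icc] at h1
  have h5 : (univ.filter fun i : Fin M => (M : ℝ) - i ≤ t).card ≤ ⌊t⌋₊ := by
    rw [Nat.add_sub_cancel] at h1
    exact h1
  calc ((univ.filter fun i : Fin M => (M : ℝ) - i ≤ t).card : ℝ) ≤ (⌊t⌋₊ : ℝ) :=
        Nat.cast_le.2 h5
    _ ≤ t := Nat.floor_le ht

theorem count_all {M : ℕ} (p : Fin M → Prop) [DecidablePred p] :
    ((univ.filter p).card : ℝ) ≤ M := by
  have h1 := card_le_univ (univ.filter p)
  rw [Fintype.card_fin] at h1
  exact_mod_cast h1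

/-- the quadratic majorant -/
theorem quad {a b y : ℝ} (ha : 0 < a) (hb : 0 < b) (hy : y ≤ a) :
    (a + y) / (a + b - y) ≤ 1 + 2 / ((a + b / 2) * b) * (y ^ 2 - b ^ 2 / 4) := by
  have h1 : 0 < a + b - y := by linarith
  have h2 : 0 < (a + b / 2) * b := by positivity
  rw [div_le_iff₀ h1, ← sub_nonneg]
  have h3 : (1 + 2 / ((a + b / 2) * b) * (y ^ 2 - b ^ 2 / 4)) * (a + b - y) - (a + y) =
      2 * ((y - b / 2) ^ 2 * (a - y)) / ((a + b / 2) * b) := by
    field_simp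
    ring
  rw [h3]
  have h4 : 0 ≤ a - y := by linarith
  positivity

theorem binom_var (m : ℕ) :
    ∑ j ∈ range (m + 1), (m.choose j : ℝ) * ((j : ℝ) - (m : ℝ) / 2) ^ 2 =
      (2 : ℝ) ^ m * ((m : ℝ) / 4) := by
  have h1 := bernsteinPolynomial.variance (R := ℝ) m
  have h2 := congrArg (Polynomial.eval (1 / 2 : ℝ)) h1
  rw [Polynomial.eval_finsetSum] at h2
  have h3 : ∀ j ∈ range (m + 1), Polynomial.eval (1 / 2 : ℝ)
      ((m • (Polynomial.X : Polynomial ℝ) - (j : Polynomial ℝ)) ^ 2 * bernsteinPolynomial ℝ m j) =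
      (1 / 2 : ℝ) ^ m * ((m.choose j : ℝ) * ((j : ℝ) - (m : ℝ) / 2) ^ 2) := by
    intro j hj
    have hj' : j ≤ m := Nat.lt_succ_iff.1 (mem_range.1 hj)
    unfold bernsteinPolynomial
    simp only [Polynomial.eval_mul, Polynomial.eval_pow, Polynomial.eval_sub,
      Polynomial.eval_X, Polynomial.eval_natCast, Polynomial.eval_one, nsmul_eq_mul]
    have h4 : (1 / 2 : ℝ) ^ m = (1 / 2) ^ j * (1 / 2) ^ (m - j) := by
      rw [← pow_add]
      congr 1
      omega
    rw [h4]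
    norm_num
    ring
  rw [sum_congr rfl h3, ← mul_sum] at h2
  have h5 : Polynomial.eval (1 / 2 : ℝ)
      (m • (Polynomial.X : Polynomial ℝ) * (1 - Polynomial.X)) = (m : ℝ) / 4 := by
    simp only [Polynomial.eval_mul, Polynomial.eval_sub, Polynomial.eval_X,
      Polynomial.eval_natCast, Polynomial.eval_one, nsmul_eq_mul]
    ring
  rw [h5] at h2
  have h6 : (2 : ℝ) ^ m * (1 / 2) ^ m = 1 := by
    rw [← mul_pow]
    norm_num
  calc _ = ((2 : ℝ) ^ m * (1 / 2 : ℝ) ^ m) * ∑ j ∈ range (m + 1), (m.choose j : ℝ) * ((j : ℝ) - (m : ℝ) / 2) ^ 2 := by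
        rw [h6, one_mul]
    _ = (2 : ℝ) ^ m * ((m : ℝ) / 4) := by rw [mul_assoc, h2]

/-- the slope of the high thresholds -/
noncomputable def cc (k : ℕ) (K : ℝ) (j : ℕ) : ℝ :=
  min (((j : ℝ) + K) / ((k : ℝ) - j)) (((k : ℝ) - 1 - j + K) / ((j : ℝ) + 1))

theorem cc_pos {k : ℕ} {K : ℝ} (hK : 0 < K) {j : ℕ} (hj : j < k) : 0 < cc k K j := by
  have hj' : (j : ℝ) + 1 ≤ k := by exact_mod_cast hj
  unfold cc
  refine lt_min ?_ ?_
  · have : 0 < (k : ℝ) - j := by linarith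
    positivity
  · have : 0 ≤ (k : ℝ) - 1 - j := by linarith
    positivity

theorem sum_inv_cc {k : ℕ} (hk : 2 ≤ k) :
    ∑ j ∈ range k, ((k - 1).choose j : ℝ) * (1 / cc k (1 + Real.sqrt ((k : ℝ) - 1)) j) ≤
      2 ^ (k - 1) := by
  obtain ⟨b, hb⟩ : ∃ b : ℝ, b = Real.sqrt ((k : ℝ) - 1) := ⟨_, rfl⟩
  rw [← hb]
  have hkR : (2 : ℝ) ≤ k := by exact_mod_cast hk
  have hb0 : 0 < b := by
    rw [hb]
    exact Real.sqrt_pos.2 (by linarith)
  have hb2 : b ^ 2 = (k : ℝ) - 1 := by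
    rw [hb]
    exact Real.sq_sqrt (by linarith)
  obtain ⟨β, hβ⟩ : ∃ β : ℝ, β = 2 / ((((k : ℝ) + 1) / 2 + b / 2) * b) := ⟨_, rfl⟩
  have hterm : ∀ j ∈ range k, 1 / cc k (1 + b) j ≤
      1 + β * (((j : ℝ) - ((k - 1 : ℕ) : ℝ) / 2) ^ 2 - ((k : ℝ) - 1) / 4) := by
    intro j hj
    have hj' : j < k := mem_range.1 hj
    have hjR : (j : ℝ) + 1 ≤ k := by exact_mod_cast hj'
    have hj0 : (0 : ℝ) ≤ j := Nat.cast_nonneg j
    have hcast : ((k - 1 : ℕ) : ℝ) = (k : ℝ) - 1 := by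
      rw [Nat.cast_sub (by omega), Nat.cast_one]
    rw [hcast]
    have ha : (0 : ℝ) < ((k : ℝ) + 1) / 2 := by linarith
    have h1 := quad (a := ((k : ℝ) + 1) / 2) (b := b) (y := (j : ℝ) - ((k : ℝ) - 1) / 2) ha hb0
      (by linarith)
    have h2 := quad (a := ((k : ℝ) + 1) / 2) (b := b) (y := -((j : ℝ) - ((k : ℝ) - 1) / 2)) ha hb0
      (by linarith)
    rw [neg_sq] at h2
    rw [← hβ] at h1 h2
    rw [hb2] at h1 h2
    have hp1 : 0 < ((j : ℝ) + (1 + b)) / ((k : ℝ) - j) := by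
      have : 0 < (k : ℝ) - j := by linarith
      positivity
    have hp2 : 0 < ((k : ℝ) - 1 - j + (1 + b)) / ((j : ℝ) + 1) := by
      have : 0 ≤ (k : ℝ) - 1 - j := by linarith
      positivity
    unfold cc
    rcases min_choice (((j : ℝ) + (1 + b)) / ((k : ℝ) - j))
      (((k : ℝ) - 1 - j + (1 + b)) / ((j : ℝ) + 1)) with h | h
    · rw [h, one_div_div]
      refine le_trans (le_of_eq ?_) h2
      congr 1 <;> ring
    · rw [h, one_div_div]
      refine le_trans (le_of_eq ?_) h1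
      congr 1 <;> ring
  have hvar := binom_var (k - 1)
  have hsc : ∑ j ∈ range (k - 1 + 1), ((k - 1).choose j : ℝ) = 2 ^ (k - 1) := by
    exact_mod_cast Nat.sum_range_choose (k - 1)
  rw [Nat.sub_add_cancel (by omega)] at hvar hsc
  calc ∑ j ∈ range k, ((k - 1).choose j : ℝ) * (1 / cc k (1 + b) j)
      ≤ ∑ j ∈ range k, ((k - 1).choose j : ℝ) *
        (1 + β * (((j : ℝ) - ((k - 1 : ℕ) : ℝ) / 2) ^ 2 - ((k : ℝ) - 1) / 4)) :=
        sum_le_sum fun j hj => mul_le_mul_of_nonneg_left (hterm j hj) (Nat.cast_nonneg _)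
    _ = ∑ j ∈ range k, ((k - 1).choose j : ℝ) +
        β * (∑ j ∈ range k, ((k - 1).choose j : ℝ) * ((j : ℝ) - ((k - 1 : ℕ) : ℝ) / 2) ^ 2 -
          ((k : ℝ) - 1) / 4 * ∑ j ∈ range k, ((k - 1).choose j : ℝ)) := by
        rw [mul_sub, mul_sum, mul_sum, mul_sum, ← sum_sub_distrib, ← sum_add_distrib]
        refine sum_congr rfl fun j _ => ?_
        ring
    _ = 2 ^ (k - 1) := by
        rw [hvar, hsc, Nat.cast_sub (by omega : 1 ≤ k), Nat.cast_one]
        ring

theorem count_low {M : ℕ} (hM : 0 < M) {z : ℝ} (hz : 0 ≤ z) :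
    ((univ.filter fun i : Fin M => (1 - (i : ℝ) / M) / 2 ≤ z).card : ℝ) ≤ 2 * z * M := by
  have hM' : (0 : ℝ) < M := by exact_mod_cast hM
  refine le_trans (le_of_eq ?_) (count_down (M := M) (t := 2 * z * M) (by positivity))
  congr 2
  ext i
  simp only [mem_filter, mem_univ, true_and]
  rw [div_le_iff₀ (by norm_num : (0 : ℝ) < 2), sub_le_iff_le_add, sub_le_iff_le_add]
  constructor
  · intro h
    have := mul_le_mul_of_nonneg_right h hM'.le
    rw [add_mul, div_mul_cancel₀ _ hM'.ne'] at this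
    linarith
  · intro h
    have h2 : (1 : ℝ) = (M : ℝ) / M := (div_self hM'.ne').symm
    have h3 : (M : ℝ) / M ≤ (2 * z * M + i) / M := div_le_div_of_nonneg_right h hM'.le
    rw [add_div, mul_div_assoc, div_self hM'.ne', mul_one] at h3
    linarith

theorem count_high {M : ℕ} (hM : 0 < M) {z c : ℝ} (hc : 0 < c) (hz : 1 / 2 ≤ z) :
    ((univ.filter fun i : Fin M => 1 / 2 + (i : ℝ) / M * c / 2 ≤ z).card : ℝ) ≤
      (2 * z - 1) * M * (1 / c) + 1 := by
  have hM' : (0 : ℝ) < M := by exact_mod_cast hM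
  have ht : 0 ≤ (2 * z - 1) * M * (1 / c) := by
    have : 0 ≤ 2 * z - 1 := by linarith
    positivity
  refine le_trans ?_ (count_up (M := M) ht)
  refine Nat.cast_le.2 (card_le_card ?_)
  intro i
  simp only [mem_filter, mem_univ, true_and]
  intro h
  have h1 : (i : ℝ) / M * c ≤ 2 * z - 1 := by linarith
  have h2 : (i : ℝ) = (i : ℝ) / M * c * M * (1 / c) := by
    field_simp
  rw [h2]
  have h3 := mul_le_mul_of_nonneg_right h1 hM'.le
  exact mul_le_mul_of_nonneg_right h3 (by positivity)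

/-- the thresholds -/
noncomputable def TA (k M : ℕ) (K : ℝ) (ω : Bool × Fin M) (j : ℕ) : ℝ :=
  if decide (Even j) = ω.1 then (1 - (ω.2 : ℝ) / M) / 2 else 1 / 2 + (ω.2 : ℝ) / M * cc k K j / 2

theorem TA_sum {k M : ℕ} (hM : 0 < M) {K : ℝ} (hK : 0 < K) (ω : Bool × Fin M) {i : ℕ}
    (hi : i ≤ k) :
    (i : ℝ) * TA k M K ω (i - 1) + ((k : ℝ) - i) * TA k M K ω i ≤ ((k : ℝ) + K) / 2 := by
  have hM' : (0 : ℝ) < M := by exact_mod_cast hM
  obtain ⟨x, hx⟩ : ∃ x : ℝ, x = (ω.2 : ℝ) / M := ⟨_, rfl⟩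
  have hx0 : 0 ≤ x := by rw [hx]; positivity
  have hx1 : x ≤ 1 := by
    rw [hx, div_le_one hM']
    exact_mod_cast ω.2.2.le
  have hxK : x * K ≤ K := by nlinarith
  have hiR : (i : ℝ) ≤ k := by exact_mod_cast hi
  have hi0 : (0 : ℝ) ≤ i := Nat.cast_nonneg i
  -- the right slope
  have hright : ((k : ℝ) - i) * cc k K i ≤ (i : ℝ) + K := by
    rcases Nat.lt_or_ge i k with h | h
    · have h1 : 0 < (k : ℝ) - i := by
        have : (i : ℝ) < k := by exact_mod_cast h
        linarith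
      calc ((k : ℝ) - i) * cc k K i ≤ ((k : ℝ) - i) * (((i : ℝ) + K) / ((k : ℝ) - i)) :=
            mul_le_mul_of_nonneg_left (min_le_left _ _) h1.le
        _ = (i : ℝ) + K := mul_div_cancel₀ _ h1.ne'
    · have h1 : (i : ℝ) = k := by exact_mod_cast (le_antisymm hi h)
      rw [h1, sub_self, zero_mul]
      have : (0 : ℝ) ≤ k := Nat.cast_nonneg k
      linarith
  have hleft : 1 ≤ i → (i : ℝ) * cc k K (i - 1) ≤ ((k : ℝ) - i) + K := by
    intro h
    have h1 : (0 : ℝ) < i := by exact_mod_cast h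
    have h2 : ((i - 1 : ℕ) : ℝ) = (i : ℝ) - 1 := by
      rw [Nat.cast_sub h, Nat.cast_one]
    calc (i : ℝ) * cc k K (i - 1)
        ≤ (i : ℝ) * (((k : ℝ) - 1 - ((i - 1 : ℕ) : ℝ) + K) / (((i - 1 : ℕ) : ℝ) + 1)) :=
          mul_le_mul_of_nonneg_left (min_le_right _ _) h1.le
      _ = ((k : ℝ) - i) + K := by
          have h3 : (i : ℝ) - 1 + 1 = i := by ring
          rw [h2, h3, mul_div_cancel₀ _ h1.ne']
          ring
  unfold TA
  rw [← hx]
  rcases Nat.eq_zero_or_pos i with h0 | hpos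
  · subst h0
    have hr : (k : ℝ) * cc k K 0 ≤ K := by simpa using hright
    have hk0 : (0 : ℝ) ≤ k := Nat.cast_nonneg k
    have hxk : 0 ≤ x * k := mul_nonneg hx0 hk0
    by_cases h : decide (Even 0) = ω.1
    · simp only [h, if_true, Nat.cast_zero]
      nlinarith
    · simp only [if_neg h, Nat.cast_zero]
      have : x * (k * cc k K 0) ≤ x * K := mul_le_mul_of_nonneg_left hr hx0
      nlinarith
  · have hpar : decide (Even (i - 1)) = !decide (Even i) := by
      have h1 : i = (i - 1) + 1 := by omega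
      have h2 : Even i ↔ ¬ Even (i - 1) := by
        conv_lhs => rw [h1]
        exact Nat.even_add_one
      by_cases hE : Even (i - 1)
      · have h3 : ¬ Even i := fun h => h2.1 h hE
        rw [decide_eq_true hE, decide_eq_false h3]
        rfl
      · have h3 : Even i := h2.2 hE
        rw [decide_eq_false hE, decide_eq_true h3]
        rfl
    by_cases h : decide (Even i) = ω.1
    · -- class `i` low, class `i - 1` high
      have h2 : ¬ (decide (Even (i - 1)) = ω.1) := by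
        rw [hpar, h]
        cases ω.1 <;> simp
      rw [if_neg h2, if_pos h]
      have h3 := mul_le_mul_of_nonneg_left (hleft hpos) hx0
      nlinarith
    · have h2 : decide (Even (i - 1)) = ω.1 := by
        rw [hpar]
        revert h
        cases decide (Even i) <;> cases ω.1 <;> simp
      rw [if_pos h2, if_neg h]
      have h3 := mul_le_mul_of_nonneg_left hright hx0
      nlinarith

theorem TA_count {k M : ℕ} (hM : 0 < M) {K : ℝ} (hK : 0 < K) {j : ℕ} (hj : j < k) {z : ℝ}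
    (hz : 0 ≤ z) :
    ((univ.filter fun ω : Bool × Fin M => TA k M K ω j ≤ z).card : ℝ) ≤
      if z < 1 / 2 then 2 * z * M else M + ((2 * z - 1) * M * (1 / cc k K j) + 1) := by
  classical
  have hM' : (0 : ℝ) < M := by exact_mod_cast hM
  have hsplit : ((univ.filter fun ω : Bool × Fin M => TA k M K ω j ≤ z).card : ℝ) =
      ((univ.filter fun i : Fin M => (1 - (i : ℝ) / M) / 2 ≤ z).card : ℝ) +
      ((univ.filter fun i : Fin M => 1 / 2 + (i : ℝ) / M * cc k K j / 2 ≤ z).card : ℝ) := by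
    rw [← sum_boole, ← sum_boole, ← sum_boole, Fintype.sum_prod_type, Fintype.sum_bool]
    unfold TA
    by_cases h : Even j
    · simp [h]
    · simp [h, add_comm]
  rw [hsplit]
  have h1 := count_low hM hz
  split_ifs with h
  · have h2 : (univ.filter fun i : Fin M => 1 / 2 + (i : ℝ) / M * cc k K j / 2 ≤ z) = ∅ := by
      rw [filter_eq_empty_iff]
      intro i _
      have := cc_pos hK hj
      have : 0 ≤ (i : ℝ) / M * cc k K j / 2 := by positivity
      linarith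
    rw [h2, card_empty, Nat.cast_zero, add_zero]
    exact h1
  · have h2 := count_high (M := M) hM (cc_pos hK hj) (not_lt.1 h)
    have h3 := count_all (fun i : Fin M => (1 - (i : ℝ) / M) / 2 ≤ z)
    linarith

theorem schemeA {k : ℕ} (hk : 2 ≤ k) {ε : ℝ} (hε : 0 < ε) :
    Scheme k (((k : ℝ) + 1 + Real.sqrt ((k : ℝ) - 1)) / 2) ε := by
  obtain ⟨K, hKdef⟩ : ∃ K : ℝ, K = 1 + Real.sqrt ((k : ℝ) - 1) := ⟨_, rfl⟩
  have hK : 0 < K := by
    rw [hKdef]
    have := Real.sqrt_nonneg ((k : ℝ) - 1)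
    linarith
  obtain ⟨M, hM⟩ := exists_nat_gt (1 / ε)
  have hM0 : 0 < M := by
    have h1 : (0 : ℝ) < M := lt_trans (by positivity) hM
    exact_mod_cast h1
  have hM' : (0 : ℝ) < M := by exact_mod_cast hM0
  have hMε : 1 ≤ M * ε := by
    rw [div_lt_iff₀ hε] at hM
    exact hM.le
  have : Nonempty (Fin M) := ⟨⟨0, hM0⟩⟩
  refine scheme_of_fintype (TA k M K) (fun ω i hi => ?_) (fun z hz => ?_)
  · refine (TA_sum hM0 hK ω hi).trans (le_of_eq ?_)
    rw [hKdef]
    ring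
  · have hcard : (Fintype.card (Bool × Fin M) : ℝ) = 2 * M := by
      simp
    rw [hcard]
    have hsc : ∑ j ∈ range k, ((k - 1).choose j : ℝ) = 2 ^ (k - 1) := by
      have := Nat.sum_range_choose (k - 1)
      rw [Nat.sub_add_cancel (by omega)] at this
      exact_mod_cast this
    have hP : (0 : ℝ) < 2 ^ (k - 1) := by positivity
    have h1 : ∑ j ∈ range k, ((k - 1).choose j : ℝ) *
        ((univ.filter fun ω : Bool × Fin M => TA k M K ω j ≤ z).card : ℝ) ≤
        ∑ j ∈ range k, ((k - 1).choose j : ℝ) *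
          (if z < 1 / 2 then 2 * z * M else M + ((2 * z - 1) * M * (1 / cc k K j) + 1)) :=
      sum_le_sum fun j hj => mul_le_mul_of_nonneg_left (TA_count hM0 hK (mem_range.1 hj) hz)
        (Nat.cast_nonneg _)
    refine h1.trans ?_
    split_ifs with h
    · rw [← sum_mul, hsc]
      nlinarith [mul_pos hP hM', mul_pos (mul_pos hP hM') hε]
    · have h2 : 0 ≤ 2 * z - 1 := by
        push Not at h
        linarith
      have h3 := sum_inv_cc hk
      rw [← hKdef] at h3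
      have h4 : ∑ j ∈ range k, ((k - 1).choose j : ℝ) *
          (M + ((2 * z - 1) * M * (1 / cc k K j) + 1)) =
          2 ^ (k - 1) * (M + 1) + (2 * z - 1) * M *
            ∑ j ∈ range k, ((k - 1).choose j : ℝ) * (1 / cc k K j) := by
        rw [← hsc, sum_mul, mul_sum, ← sum_add_distrib]
        refine sum_congr rfl fun j _ => ?_
        ring
      rw [h4]
      have h5 : (2 * z - 1) * M * ∑ j ∈ range k, ((k - 1).choose j : ℝ) * (1 / cc k K j) ≤
          (2 * z - 1) * M * 2 ^ (k - 1) := mul_le_mul_of_nonneg_left h3 (by positivity)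
      have h6 : (2 : ℝ) ^ (k - 1) * 1 ≤ 2 ^ (k - 1) * (M * ε) :=
        mul_le_mul_of_nonneg_left hMε hP.le
      have h7 : 0 ≤ (2 : ℝ) ^ (k - 1) * (M * ε) := by positivity
      nlinarith

end Pool.Agent.Helper5.FracCover
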