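import Pool.Agent.Helper5.FracCover.Levels

/-!
Checking finite tables of thresholds (problem MP_b0da8a_co).
-/

namespace Pool.Agent.Helper5.FracCover

open Finset

/-- weight of the classes with level at most `l` -/
def colF : List ℕ → List ℕ → ℕ → ℕ
  | p :: P, t :: T, l => bif Nat.ble t l then p + colF P T l else colF P T l
  | _, _, _ => 0

theorem colF_eq (P T : List ℕ) (h : T.length = P.length) (l : ℕ) :
    colF P T l = ∑ j ∈ range P.length, P.getD j 0 * (if T.getD j 0 ≤ l then 1 else 0) := by
  induction P generalizing T with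
  | nil => cases T <;> simp [colF]
  | cons p P ih =>
    cases T with
    | nil => simp at h
    | cons t T =>
      have h' : T.length = P.length := by simpa using h
      rw [List.length_cons, sum_range_succ']
      simp only [List.getD_cons_succ, List.getD_cons_zero]
      rw [← ih T h']
      have hc : colF (p :: P) (t :: T) l =
          bif Nat.ble t l then p + colF P T l else colF P T l := by rw [colF]
      rw [hc]
      by_cases ht : t ≤ l
      · rw [Nat.ble_eq_true_of_le ht]
        simp [ht, add_comm]
      · have : Nat.ble t l = false := by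
          rw [← Bool.not_eq_true, Nat.ble_eq]
          exact ht
        rw [this]
        simp [ht]

/-- total weight -/
def totW (L : List (ℕ × List ℕ)) : ℕ := (L.map fun c => c.1).sum

/-- the distribution function -/
def totF (P : List ℕ) (L : List (ℕ × List ℕ)) (l : ℕ) : ℕ := (L.map fun c => c.1 * colF P c.2 l).sum

/-- the sum conditions for one row -/
def rowOk (k n G : ℕ) (T : List ℕ) : Bool :=
  (List.range (k + 1)).all fun i =>
    Nat.ble (i * T.getD (i - 1) 0 + (k - i) * T.getD i 0) (G * n + min i (k - i))

/-- the complete check -/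
def tableOk (k n G : ℕ) (P : List ℕ) (L : List (ℕ × List ℕ)) : Bool :=
  (L.all fun c => Nat.beq c.2.length k && rowOk k n G c.2) &&
  ((List.range (n + 1)).all fun l => Nat.ble (n * totF P L l) (l * (2 ^ (k - 1) * totW L))) &&
  Nat.ble 1 (totW L)

theorem scheme_of_table {k n G : ℕ} (hn : 0 < n) (hk : 1 ≤ k) (P : List ℕ)
    (L : List (ℕ × List ℕ)) (hP : P.length = k) (hPc : ∀ j < k, P.getD j 0 = (k - 1).choose j)
    (hok : tableOk k n G P L = true) {ε : ℝ} (hε : 0 < ε) : Scheme k G ε := by
  unfold tableOk at hok
  rw [Bool.and_eq_true, Bool.and_eq_true] at hok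
  obtain ⟨⟨h1, h2⟩, h3⟩ := hok
  rw [List.all_eq_true] at h1 h2
  have hsumW : ∑ c : Fin L.length, (L[c]).1 = totW L := by
    unfold totW
    rw [← List.sum_ofFn]
    congr 1
    apply List.ext_getElem <;> simp
  refine scheme_of_levels hn (fun c : Fin L.length => fun j => (L[c]).2.getD j 0)
    (fun c => (L[c]).1) ?_ ?_ ?_ hε hk
  · rw [hsumW]
    exact Nat.le_of_ble_eq_true h3
  · intro c i hi
    have h4 := h1 (L[c]) (List.getElem_mem _)
    rw [Bool.and_eq_true] at h4
    have h5 := h4.2
    unfold rowOk at h5
    rw [List.all_eq_true] at h5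
    exact Nat.le_of_ble_eq_true (h5 i (List.mem_range.2 (by omega)))
  · intro l hl
    have h4 := Nat.le_of_ble_eq_true (h2 l (List.mem_range.2 (by omega)))
    rw [hsumW]
    refine le_trans (le_of_eq ?_) h4
    congr 1
    have h5 : totF P L l = ∑ c : Fin L.length, (L[c]).1 * colF P (L[c]).2 l := by
      unfold totF
      rw [← List.sum_ofFn]
      congr 1
      apply List.ext_getElem <;> simp
    rw [h5]
    simp_rw [mul_sum]
    rw [sum_comm]
    refine sum_congr rfl fun c _ => ?_
    have h6 := h1 (L[c]) (List.getElem_mem _)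
    rw [Bool.and_eq_true] at h6
    have h7 : (L[c]).2.length = k := Nat.eq_of_beq_eq_true h6.1
    rw [colF_eq P (L[c]).2 (by rw [h7, hP]) l, hP, mul_sum]
    refine sum_congr rfl fun j hj => ?_
    rw [hPc j (mem_range.1 hj)]
    split_ifs <;> ring

end Pool.Agent.Helper5.FracCover
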